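import Pool.Agent.Helper815.Coll.Odd

/-!
The lower half of the conjectured average order of the height of the 3x+1 map on odd integers.
-/

set_option autoImplicit false

namespace Pool.Agent.Results.MP_2b866c_nt.LowerHalf

open scoped ENNReal Topology
open Filter

/-- The map `C` on odd positive integers: `C(m) = (3m+1)/2^{e(m)}`, with `2^{e(m)}` the largest
power of `2` dividing `3m+1`. -/
def C (n : ℕ) : ℕ := (3 * n + 1) / 2 ^ padicValNat 2 (3 * n + 1)

open Classical in
/-- The height `h(m)`: the least `k ≥ 1` with `C^k(m) = 1`, and `∞` if there is none. -/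
noncomputable def height (m : ℕ) : ℕ∞ :=
  if h : ∃ k : ℕ, 1 ≤ k ∧ C^[k] m = 1 then ((Nat.find h : ℕ) : ℕ∞) else ⊤

/-- The odd integers `1 ≤ m ≤ x`. -/
noncomputable def odds (x : ℝ) : Finset ℕ := (Finset.Icc 1 ⌊x⌋₊).filter (fun m => Odd m)

/-- The average `H(x) = (2/x) ∑_{m odd, m ≤ x} h(m)` as an element of `[0, ∞]`. -/
noncomputable def H (x : ℝ) : ℝ≥0∞ :=
  (2 * ∑ m ∈ odds x, (height m : ℝ≥0∞)) / ENNReal.ofReal x

/-- The average `H(x) = (2/x) ∑_{m odd, m ≤ x} h(m)` as a real number (used only when all heights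
are finite). -/
noncomputable def HReal (x : ℝ) : ℝ :=
  (2 * ∑ m ∈ odds x, ((height m).toNat : ℝ)) / x

theorem floor_bound (x : ℝ) (hx : 3 ≤ x) :
    x * Real.log x - Real.log x - 1 ≤ (⌊x⌋₊ : ℝ) * Real.log (⌊x⌋₊ : ℝ) := by
  have h1 : x - 1 < (⌊x⌋₊ : ℝ) := Nat.sub_one_lt_floor x
  have h2 : 0 < x - 1 := by linarith
  have h3 : Real.log (x - 1) ≤ Real.log (⌊x⌋₊ : ℝ) := Real.log_le_log h2 h1.le
  have h4 : Real.log x - Real.log (x - 1) ≤ 1 / (x - 1) := by
    rw [← Real.log_div (by linarith) h2.ne']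
    refine (Real.log_le_sub_one_of_pos (div_pos (by linarith) h2)).trans (le_of_eq ?_)
    field_simp
    ring
  have h5 : 0 ≤ Real.log (x - 1) := Real.log_nonneg (by linarith)
  have h6 : (x - 1) * Real.log (x - 1) ≤ (⌊x⌋₊ : ℝ) * Real.log (⌊x⌋₊ : ℝ) :=
    mul_le_mul h1.le h3 h5 (by positivity)
  have h7 : (x - 1) * (Real.log x - Real.log (x - 1)) ≤ 1 := by
    have := mul_le_mul_of_nonneg_left h4 h2.le
    rwa [mul_one_div_cancel h2.ne'] at this
  nlinarith

theorem const_eq : (2 : ℝ) / Real.log (16 / 9) = 1 / Real.log (4 / 3) := by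
  have h : Real.log (16 / 9) = 2 * Real.log (4 / 3) := by
    have : (16 / 9 : ℝ) = (4 / 3) ^ 2 := by norm_num
    rw [this, Real.log_pow]
    push_cast
    ring
  have hM : 0 < Real.log (4 / 3) := Real.log_pos (by norm_num)
  rw [h]
  field_simp

theorem lower (B : ℝ) (hB : B < 2 / Real.log (16 / 9)) :
    ∀ᶠ x : ℝ in atTop, ENNReal.ofReal (B * Real.log x) ≤ H x := by
  have hM : 0 < Real.log (4 / 3) := Real.log_pos (by norm_num)
  rw [const_eq] at hB
  have h0 : max B 0 < 1 / Real.log (4 / 3) := max_lt hB (by positivity)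
  obtain ⟨B', hB1, hB2⟩ := exists_between h0
  have hB0 : 0 < B' := (le_max_right _ _).trans_lt hB1
  have hBB : B < B' := (le_max_left _ _).trans_lt hB1
  obtain ⟨X, hX⟩ := Pool.Agent.Helper815.Coll.core_height (B := B')
    (by rwa [lt_div_iff₀ hM] at hB2)
  filter_upwards [eventually_ge_atTop (3 : ℝ), eventually_ge_atTop ((X : ℝ) + 1),
    eventually_ge_atTop (2 * B' / (B' - B))] with x hx3 hxX hxB
  have hx0 : 0 < x := by linarith
  have hXN : X ≤ ⌊x⌋₊ := Nat.le_floor (by linarith)
  obtain ⟨β, hβ, hs⟩ := hX ⌊x⌋₊ hXN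
  have hlog : 1 ≤ Real.log x := by
    rw [Real.le_log_iff_exp_le hx0]
    have := Real.exp_one_lt_d9
    linarith
  have hreal : B * Real.log x * x ≤ 2 * ∑ n ∈ odds x, β n := by
    refine le_trans ?_ hs
    have h1 := mul_le_mul_of_nonneg_left (floor_bound x hx3) hB0.le
    rw [div_le_iff₀ (by linarith)] at hxB
    have h2 : 2 * B' * Real.log x ≤ x * (B' - B) * Real.log x :=
      mul_le_mul_of_nonneg_right hxB (by linarith)
    have h3 : B' * 1 ≤ B' * Real.log x := mul_le_mul_of_nonneg_left hlog hB0.le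
    nlinarith
  unfold H
  rw [ENNReal.le_div_iff_mul_le (Or.inl (by
    rw [Ne, ENNReal.ofReal_eq_zero]; exact not_le.2 hx0)) (Or.inl ENNReal.ofReal_ne_top)]
  have hoddm : ∀ n ∈ odds x, Odd n := fun n hn => (Finset.mem_filter.1 hn).2
  have hsum : ENNReal.ofReal (∑ n ∈ odds x, β n) ≤ ∑ n ∈ odds x, (height n : ℝ≥0∞) := by
    rw [ENNReal.ofReal_sum_of_nonneg (fun n hn => (hβ n (hoddm n hn)).1)]
    apply Finset.sum_le_sum
    intro n hn
    unfold height
    split_ifs with h
    · have h3 := (hβ n (hoddm n hn)).2 _ (Nat.find_spec h).2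
      rw [ENat.toENNReal_coe, ← ENNReal.ofReal_natCast]
      exact ENNReal.ofReal_le_ofReal h3
    · simp
  refine le_trans ?_ (mul_le_mul_right hsum 2)
  rw [← ENNReal.ofReal_mul' hx0.le]
  refine (ENNReal.ofReal_le_ofReal hreal).trans ?_
  rw [ENNReal.ofReal_mul (by norm_num)]
  simp

theorem H_eq (hconj : ∀ m : ℕ, Odd m → height m ≠ ⊤) (x : ℝ) (hx : 0 < x) :
    H x = ENNReal.ofReal (HReal x) := by
  unfold H HReal
  rw [ENNReal.ofReal_div_of_pos hx, ENNReal.ofReal_mul (by norm_num),
    ENNReal.ofReal_sum_of_nonneg (fun n _ => by positivity)]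
  congr 2
  · simp
  · apply Finset.sum_congr rfl
    intro n hn
    have hn1 : Odd n := (Finset.mem_filter.1 hn).2
    have h := ENat.natCast_toNat (hconj n hn1)
    conv_lhs => rw [← h]
    simp

/-- (1) For every real `B < 2/log(16/9)`: `H(x) ≥ B log x` for all large real `x` (no hypothesis).
(2) In particular the liminf of `H(x) / log x` is at least `2/log(16/9)`.  (3) Q1 (all heights are
finite and `H(x) ~ 2 log x / log(16/9)`) holds if and only if all heights are finite and
`H(x) ≤ A log x` for all large `x`, for every `A > 2/log(16/9)`. -/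
theorem result :
    (∀ B : ℝ, B < 2 / Real.log (16 / 9) →
      ∀ᶠ x : ℝ in atTop, ENNReal.ofReal (B * Real.log x) ≤ H x) ∧
    (ENNReal.ofReal (2 / Real.log (16 / 9)) ≤
      liminf (fun x : ℝ => H x / ENNReal.ofReal (Real.log x)) atTop) ∧
    (((∀ m : ℕ, Odd m → height m ≠ ⊤) ∧
        Tendsto (fun x : ℝ => HReal x / (2 * Real.log x / Real.log (16 / 9))) atTop (𝓝 1)) ↔
      ((∀ m : ℕ, Odd m → height m ≠ ⊤) ∧
        ∀ A : ℝ, 2 / Real.log (16 / 9) < A →
          ∀ᶠ x : ℝ in atTop, HReal x ≤ A * Real.log x)) := by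
  have hM : 0 < Real.log (16 / 9) := Real.log_pos (by norm_num)
  set c : ℝ := 2 / Real.log (16 / 9) with hc
  have hc0 : 0 < c := by positivity
  refine ⟨lower, ?_, and_congr_right fun hconj => ?_⟩
  · refine le_of_forall_lt fun a ha => ?_
    obtain ⟨b, hab, hbc⟩ := exists_between ha
    have hbtop : b ≠ ⊤ := ne_top_of_lt hbc
    have hb : b.toReal < c := by
      rw [← ENNReal.ofReal_toReal hbtop] at hbc
      exact (ENNReal.ofReal_lt_ofReal_iff hc0).1 hbc
    refine lt_of_lt_of_le hab ?_
    refine le_liminf_of_le (by isBoundedDefault) ?_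
    filter_upwards [lower b.toReal hb, eventually_gt_atTop (1 : ℝ)] with x hx hx1
    have hlog : 0 < Real.log x := Real.log_pos hx1
    rw [ENNReal.le_div_iff_mul_le (Or.inl (by
      rw [Ne, ENNReal.ofReal_eq_zero]; exact not_le.2 hlog)) (Or.inl ENNReal.ofReal_ne_top)]
    calc b * ENNReal.ofReal (Real.log x)
        = ENNReal.ofReal (b.toReal * Real.log x) := by
          rw [ENNReal.ofReal_mul ENNReal.toReal_nonneg, ENNReal.ofReal_toReal hbtop]
      _ ≤ H x := hx
  · have hlow : ∀ B : ℝ, B < c → ∀ᶠ x : ℝ in atTop, B * Real.log x ≤ HReal x := by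
      intro B hB
      filter_upwards [lower B hB, eventually_gt_atTop (0 : ℝ)] with x hx hx0
      rw [H_eq hconj x hx0] at hx
      have hn : 0 ≤ HReal x := by
        unfold HReal
        positivity
      exact (ENNReal.ofReal_le_ofReal_iff hn).1 hx
    have hfun : (fun x : ℝ => HReal x / (2 * Real.log x / Real.log (16 / 9))) =
        fun x : ℝ => HReal x / (c * Real.log x) := by
      funext x
      rw [hc]
      congr 1
      ring
    rw [hfun]
    refine ⟨fun h A hA => ?_, fun h => ?_⟩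
    · have h1 : (1 : ℝ) < A / c := by rw [lt_div_iff₀ hc0]; linarith
      filter_upwards [h.eventually (gt_mem_nhds h1), eventually_gt_atTop (1 : ℝ)] with x hx hx1
      have hlog : 0 < Real.log x := Real.log_pos hx1
      rw [div_lt_div_iff₀ (by positivity) hc0] at hx
      have h2 : HReal x * c ≤ (A * Real.log x) * c := by nlinarith
      exact le_of_mul_le_mul_right h2 hc0
    · rw [tendsto_order]
      refine ⟨fun a ha => ?_, fun a ha => ?_⟩
      · have h1 : (a + 1) / 2 * c < c := by nlinarith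
        filter_upwards [hlow _ h1, eventually_gt_atTop (1 : ℝ)] with x hx hx1
        have hlog : 0 < Real.log x := Real.log_pos hx1
        rw [lt_div_iff₀ (by positivity)]
        have : 0 < c * Real.log x := by positivity
        nlinarith
      · have h1 : c < (a + 1) / 2 * c := by nlinarith
        filter_upwards [h _ h1, eventually_gt_atTop (1 : ℝ)] with x hx hx1
        have hlog : 0 < Real.log x := Real.log_pos hx1
        rw [div_lt_iff₀ (by positivity)]
        have : 0 < c * Real.log x := by positivity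
        nlinarith

end Pool.Agent.Results.MP_2b866c_nt.LowerHalf
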